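import Mathlib
import Pool.Agent.H617Z.SymUpper
set_option autoImplicit false

/-! The value of `ms(SO(3), 2)`. -/

namespace Pool.Agent.Results.MP_4912e6_co.ASO3

open Pool.Agent.H617Z.Sym

theorem result : ms SO3 2 = 1 / 4 := ms_SO3

end Pool.Agent.Results.MP_4912e6_co.ASO3
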